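import Pool.Agent.R574.EM.Unary

set_option autoImplicit false

/-!
# The family `EM₁` lies strictly between `M` and `RE`

* Every matrix language is the mode 1 language of a two-component even matrix grammar.
* Some mode 1 language of a two-component grammar is not a matrix language (queue simulation).
* For each even matrix grammar the mode 0 and the mode 1 language have the same Parikh image.
* The recursively enumerable language of the words `a^(2^k)` is not in `EM₁`.
-/

open Pool.Agent.R574.EM in
/-- `M ⊊ EM₁ ⊊ RE`, and mode 0 and mode 1 languages of one grammar have the same Parikh image. -/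
theorem Pool.Agent.Results.MP_99d1ae_lc.StrictlyBetween.result :
    (∀ (T : Type) (H : MatrixGrammar T), ∃ G : Grammar 2 T, G.language true = H.language) ∧
    (∃ G : Grammar 2 Bool, ∀ H : MatrixGrammar Bool, H.language ≠ G.language true) ∧
    (∀ (n : ℕ) (T : Type) (G : Grammar n T), G.language true ⊆ G.language false ∧
      ∀ w ∈ G.language false, ∃ u ∈ G.language true, u.Perm w) ∧
    (REPred (fun w : List Unit => ∃ k, w.length = 2 ^ k) ∧
      ∀ (n : ℕ) (G : Grammar n Unit), G.language true ≠ {w | ∃ k, w.length = 2 ^ k}) :=
  ⟨fun _ H => ⟨Mat.G H, Mat.language_true H⟩,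
    ⟨Queue.G, fun H h => Queue.main 2 (Mat.G H) ((Mat.language_false H).trans h)⟩,
    fun _ _ G => ⟨G.language_mono, fun _ hw => exists_perm G hw⟩,
    pow2_re, fun _ G => pow2_not G true⟩
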